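import Pool.Agent.Helper95.HS.Stmts
import Pool.Agent.Helper14.LN.MLL
import Pool.Agent.Helper7.PN.HLOC
import Pool.Agent.Helper13.PM.HA3

/-! Row MLH: the localized Morawetz inequality for hydrogen systems, explicit powers of `d`. -/

set_option autoImplicit false

namespace Pool.Agent.Helper7.HS

open MeasureTheory Filter Pool.Agent.Helper95.PW Pool.Agent.Helper95.LN Pool.Agent.Helper95.CF
open Pool.Agent.Helper95.HS Pool.Agent.Helper14.LN

theorem mlh_nr (v : R3) : nr v = ‖WithLp.toLp 2 v‖ := by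
  rw [EuclideanSpace.norm_eq]
  simp [nr, Fin.sum_univ_three, sq_abs]

theorem mlh_tri (a b y : R3) : nr (a - b) ≤ nr (y - a) + nr (y - b) := by
  rw [mlh_nr, mlh_nr, mlh_nr]
  have h : (WithLp.toLp 2 (a - b) : EuclideanSpace ℝ (Fin 3)) =
      WithLp.toLp 2 (y - b) - WithLp.toLp 2 (y - a) := by
    ext i
    simp
  rw [h, add_comm]
  exact norm_sub_le _ _

theorem mlh_near {M : ℕ} (X : Fin M → R3) (d : ℝ) (hd : 0 < d) (hS : Sep X d) (y : R3) :
    near1 X d y ≤ 1 + near2 X d y := by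
  unfold near1 near2
  by_cases h : ∃ j, nr (y - X j) < d
  · obtain ⟨j0, hj0⟩ := h
    have hz : ∀ j, j ≠ j0 → ¬ nr (y - X j) < d := by
      intro j hj hlt
      have h1 := hS j j0 hj
      have h2 := mlh_tri (X j) (X j0) y
      linarith
    rw [Finset.sum_eq_single j0, Finset.sum_eq_single j0, if_pos hj0, if_pos hj0]
    · have e : 1 / nr (y - X j0) ^ 2 = (1 / nr (y - X j0)) ^ 2 := by rw [div_pow, one_pow]
      rw [e]
      nlinarith [sq_nonneg (1 / nr (y - X j0) - 1)]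
    · intro j _ hj
      rw [if_neg (hz j hj)]
    · intro h; exact absurd (Finset.mem_univ _) h
    · intro j _ hj
      rw [if_neg (hz j hj)]
    · intro h; exact absurd (Finset.mem_univ _) h
  · push Not at h
    rw [Finset.sum_eq_zero, Finset.sum_eq_zero]
    · norm_num
    · intro j _
      rw [if_neg (not_lt.2 (h j))]
    · intro j _
      rw [if_neg (not_lt.2 (h j))]

theorem mlh_near2 {M : ℕ} (X : Fin M → R3) (d : ℝ) (y : R3) : 0 ≤ near2 X d y := by
  unfold near2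
  refine Finset.sum_nonneg fun j _ => ?_
  split_ifs <;> positivity

theorem mlh_rem (hKK : ST_KK) {n M : ℕ} {X : Fin M → R3} {b : ℝ} (hb : 0 < b) {x : Cf n}
    (hx : Dist X x) : 0 ≤ Rem b x := by
  unfold Rem
  refine Finset.sum_nonneg fun k _ => Finset.sum_nonneg fun l _ => ?_
  split_ifs with h
  · have h1 := (hKK b (x k - x l) hb).2.1 (hx.1 k l h.ne)
    linarith
  · exact le_rfl

/-- the pointwise bound of the virial by integrable quantities -/
theorem mlh_point (hES : ST_ES1X) (hKK : ST_KK) {n M : ℕ} {d A C1 : ℝ} {X : Fin M → R3}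
    {Z : Fin M → ℝ} {g : R3 → ℝ} (hd : 1 ≤ d) (hA : 1 ≤ A) (hC1 : 0 < C1) (hS : Sep X d)
    (hN : Nuc n Z) (hZ : ∀ j, Z j = 1) (x : Cf n) (hx : Dist X x)
    (hv : -(1 / 2 * (∑ k, near2 X d (x k)) +
      C1 * A / d * (n + Dn (d / 8) X Z x + Rem (d / 8) x)) ≤ Vir X Z g x) :
    0 ≤ Vc X Z x + 17 * (n + ∑ k, near2 X d (x k)) ∧
    -(1 / 2 * (∑ k, near2 X d (x k)) + C1 * A / d *
      (n + 2 * (Vc X Z x + 17 * (n + ∑ k, near2 X d (x k))))) ≤ Vir X Z g x := by
  have hd0 : 0 < d := by linarith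
  have h1 := hES 1 d zero_le_one hd0 n M X Z x hS hN (fun j => (hZ j).le) hx
  have hR := mlh_rem hKK (X := X) (b := d / 8) (by positivity) hx
  have hD : 0 ≤ Dn (d / 8) X Z x := by
    unfold Dn
    refine mul_nonneg ?_ (integral_nonneg fun w => Finset.sum_nonneg fun i _ => sq_nonneg _)
    have hk : 0 ≤ kap := by
      unfold kap
      refine integral_nonneg fun y => ?_
      unfold et
      have hcb : 0 ≤ cb := by
        unfold cb
        exact intervalIntegral.integral_nonneg (by norm_num) fun t _ => sq_nonneg _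
      positivity
    positivity
  have h2 : ∑ k, near1 X d (x k) ≤ n + ∑ k, near2 X d (x k) := by
    have := Finset.sum_le_sum fun k (_ : k ∈ Finset.univ) => mlh_near X d hd0 hS (x k)
    rw [Finset.sum_add_distrib, Finset.sum_const, Finset.card_univ, Fintype.card_fin,
      nsmul_eq_mul, mul_one] at this
    exact this
  have h3 : 8 * (1 + 1) / d * (n : ℝ) ≤ 16 * n := by
    have hn : (0 : ℝ) ≤ n := Nat.cast_nonneg n
    refine mul_le_mul_of_nonneg_right ?_ hn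
    rw [div_le_iff₀ hd0]
    linarith
  have h4 : 0 ≤ ∑ k, near2 X d (x k) := Finset.sum_nonneg fun k _ => mlh_near2 X d _
  have h5 : 1 / 2 * Dn (d / 8) X Z x + Rem (d / 8) x ≤
      Vc X Z x + 17 * (n + ∑ k, near2 X d (x k)) := by linarith
  refine ⟨by linarith, le_trans ?_ hv⟩
  have h6 : 0 ≤ C1 * A / d := by positivity
  have h7 := mul_le_mul_of_nonneg_left (show (n : ℝ) + Dn (d / 8) X Z x + Rem (d / 8) x ≤
    n + 2 * (Vc X Z x + 17 * (n + ∑ k, near2 X d (x k))) by linarith) h6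
  linarith

/-- the bound of the virial, integrated -/
theorem mlh_vir {n M : ℕ} {d c : ℝ} {X : Fin M → R3} {Z : Fin M → ℝ} {g : R3 → ℝ} {u : Wf n}
    (hu : Sm u) (aed : ∀ᵐ x : Cf n, Dist X x)
    (hV : ∀ x : Cf n, Dist X x → 0 ≤ Vc X Z x + 17 * (n + ∑ k, near2 X d (x k)) ∧
      -(1 / 2 * (∑ k, near2 X d (x k)) + c *
        (n + 2 * (Vc X Z x + 17 * (n + ∑ k, near2 X d (x k))))) ≤ Vir X Z g x)
    (i1 : ∀ s, Integrable (fun x : Cf n => Vc X Z x * u s x ^ 2))
    (i2 : ∀ s, Integrable (fun x : Cf n => (∑ k, near2 X d (x k)) * u s x ^ 2))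
    (i3 : ∀ s, Integrable (fun x : Cf n => Vir X Z g x * u s x ^ 2)) :
    0 ≤ (∑ s, ∫ x, Vc X Z x * u s x ^ 2) +
      (17 * n * Pool.Agent.Helper95.PW.sq u + 17 * one (near2 X d) u) ∧
    -(1 / 2 * one (near2 X d) u + c * (n * Pool.Agent.Helper95.PW.sq u +
      2 * ((∑ s, ∫ x, Vc X Z x * u s x ^ 2) +
      (17 * n * Pool.Agent.Helper95.PW.sq u + 17 * one (near2 X d) u)))) ≤
      ∑ s, ∫ x, Vir X Z g x * u s x ^ 2 := by
  have i4 : ∀ s, Integrable (fun x : Cf n => u s x ^ 2) := fun s =>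
    ((hu s).1.continuous.memLp_of_hasCompactSupport (hu s).2 (p := 2)).integrable_sq
  have i5 : ∀ s, Integrable (fun x : Cf n => Vc X Z x * u s x ^ 2 +
      (17 * n * u s x ^ 2 + 17 * ((∑ k, near2 X d (x k)) * u s x ^ 2))) :=
    fun s => (i1 s).add (((i4 s).const_mul _).add ((i2 s).const_mul _))
  have e5 : (∑ s, ∫ x, Vc X Z x * u s x ^ 2) +
      (17 * n * Pool.Agent.Helper95.PW.sq u + 17 * one (near2 X d) u) =
      ∑ s, ∫ x, (Vc X Z x * u s x ^ 2 +
      (17 * n * u s x ^ 2 + 17 * ((∑ k, near2 X d (x k)) * u s x ^ 2))) := by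
    unfold one Pool.Agent.Helper95.PW.sq
    rw [Finset.mul_sum, Finset.mul_sum, ← Finset.sum_add_distrib, ← Finset.sum_add_distrib]
    refine Finset.sum_congr rfl fun s _ => ?_
    have j1 : Integrable (fun x : Cf n => 17 * (n : ℝ) * u s x ^ 2) := (i4 s).const_mul _
    have j2 : Integrable (fun x : Cf n => 17 * ((∑ k, near2 X d (x k)) * u s x ^ 2)) :=
      (i2 s).const_mul _
    have j3 : Integrable (fun x : Cf n =>
      17 * (n : ℝ) * u s x ^ 2 + 17 * ((∑ k, near2 X d (x k)) * u s x ^ 2)) := j1.add j2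
    rw [integral_add (i1 s) j3, integral_add j1 j2, integral_const_mul, integral_const_mul]
  refine ⟨?_, ?_⟩
  · rw [e5]
    refine Finset.sum_nonneg fun s _ => integral_nonneg_of_ae ?_
    filter_upwards [aed] with x hx
    have h := mul_nonneg (hV x hx).1 (sq_nonneg (u s x))
    refine h.trans (le_of_eq ?_)
    ring
  · rw [e5]
    have e6 : 1 / 2 * one (near2 X d) u + c * (n * Pool.Agent.Helper95.PW.sq u +
      2 * ∑ s, ∫ x, (Vc X Z x * u s x ^ 2 +
        (17 * n * u s x ^ 2 + 17 * ((∑ k, near2 X d (x k)) * u s x ^ 2)))) =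
      ∑ s, ∫ x, (1 / 2 * ((∑ k, near2 X d (x k)) * u s x ^ 2) + (c * n * u s x ^ 2 +
        2 * c * (Vc X Z x * u s x ^ 2 +
        (17 * n * u s x ^ 2 + 17 * ((∑ k, near2 X d (x k)) * u s x ^ 2))))) := by
      have e7 : ∀ s, ∫ x, (1 / 2 * ((∑ k, near2 X d (x k)) * u s x ^ 2) + (c * n * u s x ^ 2 +
        2 * c * (Vc X Z x * u s x ^ 2 +
        (17 * n * u s x ^ 2 + 17 * ((∑ k, near2 X d (x k)) * u s x ^ 2))))) =
        1 / 2 * (∫ x, (∑ k, near2 X d (x k)) * u s x ^ 2) + (c * n * (∫ x, u s x ^ 2) +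
        2 * c * ∫ x, (Vc X Z x * u s x ^ 2 +
        (17 * n * u s x ^ 2 + 17 * ((∑ k, near2 X d (x k)) * u s x ^ 2)))) := by
        intro s
        have j1 : Integrable (fun x : Cf n => 1 / 2 * ((∑ k, near2 X d (x k)) * u s x ^ 2)) :=
          (i2 s).const_mul _
        have j2 : Integrable (fun x : Cf n => c * n * u s x ^ 2) := (i4 s).const_mul _
        have j3 : Integrable (fun x : Cf n => 2 * c * (Vc X Z x * u s x ^ 2 +
          (17 * n * u s x ^ 2 + 17 * ((∑ k, near2 X d (x k)) * u s x ^ 2)))) :=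
          (i5 s).const_mul _
        have j4 : Integrable (fun x : Cf n => c * n * u s x ^ 2 + 2 * c * (Vc X Z x * u s x ^ 2 +
          (17 * n * u s x ^ 2 + 17 * ((∑ k, near2 X d (x k)) * u s x ^ 2)))) := j2.add j3
        rw [integral_add j1 j4, integral_add j2 j3, integral_const_mul, integral_const_mul,
          integral_const_mul]
      rw [Finset.sum_congr rfl fun s _ => e7 s, Finset.sum_add_distrib, Finset.sum_add_distrib,
        ← Finset.mul_sum, ← Finset.mul_sum, ← Finset.mul_sum]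
      unfold one Pool.Agent.Helper95.PW.sq
      ring
    rw [e6, ← Finset.sum_neg_distrib]
    refine Finset.sum_le_sum fun s _ => ?_
    rw [← integral_neg]
    have j1 : Integrable (fun x : Cf n => 1 / 2 * ((∑ k, near2 X d (x k)) * u s x ^ 2) +
        (c * n * u s x ^ 2 + 2 * c * (Vc X Z x * u s x ^ 2 +
        (17 * n * u s x ^ 2 + 17 * ((∑ k, near2 X d (x k)) * u s x ^ 2))))) :=
      ((i2 s).const_mul _).add (((i4 s).const_mul _).add ((i5 s).const_mul _))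
    refine integral_mono_ae j1.neg (i3 s) ?_
    filter_upwards [aed] with x hx
    have h := mul_le_mul_of_nonneg_right (hV x hx).2 (sq_nonneg (u s x))
    refine le_trans (le_of_eq ?_) h
    ring

theorem MLH (h1 : ST_MGY) (h2 : ST_KID) (h3 : ST_VID) (h4 : ST_VIRX) (h5 : ST_ES1X) (h6 : ST_KK)
    (h7 : ST_AED) (h8 : ST_HLS) (h9 : ST_PGB) (h10 : ST_PAN) (h11 : ST_STB) (h12 : ST_INTM) :
    ST_MLH := by
  have hHL : ST_HLOC := st_HLOC st_HA3
  obtain ⟨A, hA1, hA⟩ := h1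
  obtain ⟨C1, hC1, hV⟩ := h4
  obtain ⟨C2, hC2, hH⟩ := h8
  obtain ⟨C3, hC3, hH3⟩ := hHL
  have hA0 : 0 ≤ A := by linarith
  obtain ⟨K, hK⟩ : ∃ K, K = 68 + 34 * C2 := ⟨_, rfl⟩
  obtain ⟨c0, hc0⟩ : ∃ c0, c0 = 2 * C2 + 2 * A + 4 * C1 * A := ⟨_, rfl⟩
  have hK0 : 0 ≤ K := by rw [hK]; positivity
  have hc00 : 0 ≤ c0 := by rw [hc0]; positivity
  obtain ⟨C, hC⟩ : ∃ C, C = 4 * C1 * A + K + c0 + 1 := ⟨_, rfl⟩
  have hCA : 0 ≤ 4 * C1 * A := by positivity
  have hC0 : 0 < C := by rw [hC]; positivity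
  have hC1' : 1 ≤ C := by rw [hC]; linarith
  refine ⟨C, hC0, fun d n M X Z E B0 hd hM hn hX hNuc hZ => ?_⟩
  have hd0 : 0 < d := by linarith
  obtain ⟨P, hP⟩ : ∃ P, P = 7 * A ^ 2 * n * (|B0| + C3 * (|B0| + n * 2 / d ^ 2)) := ⟨_, rfl⟩
  have hP0 : 0 ≤ P := by rw [hP]; positivity
  refine ⟨2 * Real.sqrt P + 1, by positivity, fun u hu hsq hkB s hs hs1 => ?_⟩
  have hg := hA M X d s hd hX hs (hs1.trans hd)
  obtain ⟨g, hgg⟩ : ∃ g, g = mG X d s := ⟨_, rfl⟩
  rw [← hgg] at hg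
  have hw : Sm (fun s => Pg g (u s)) := (h11 n g u hg.sm hu).2.1
  have hkin0 : 0 ≤ kin u := by
    unfold kin Pool.Agent.Helper95.PW.sq
    exact Finset.sum_nonneg fun k _ => Finset.sum_nonneg fun i _ => Finset.sum_nonneg fun s _ =>
      integral_nonneg fun x => sq_nonneg _
  have hsq0 : 0 ≤ Pool.Agent.Helper95.PW.sq u := by
    unfold Pool.Agent.Helper95.PW.sq
    exact Finset.sum_nonneg fun s _ => integral_nonneg fun x => sq_nonneg _
  have hn0 : (0 : ℝ) ≤ n := Nat.cast_nonneg n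
  have hHL3 := hH3 n M X d u hd0 hX hu
  have hHS := hH d n M X u hd hX hu
  have hB := mll_bi hs hg.sm hg.bi hu
  have hKi := h2 n g u hg.sm hu
  have hHs := MLOC_hess hg.sm hg.hs hu
  have hR := mll_res h10 h12 X Z E hg.sm hu hw
  obtain ⟨hvd1, hvd2⟩ := h3 n M X Z g u hg.sm hg.cs hu
  obtain ⟨hvc1, hvc2⟩ := mll_vc h12 X Z hu
  obtain ⟨hT0, hTV⟩ := mlh_vir (d := d) (c := C1 * A / d) (g := g) hu (h7 n M X)
    (fun x hx => mlh_point h5 h6 hd hA1 hC1 hX hNuc hZ x hx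
      (hV d A n M X Z g x hd hA1 hX hNuc hZ hg.sm hg.outd hg.d1 hg.hs hg.inn hx))
    hvc1 hHL3.1 hvd1
  have hcs := INL_cauchy hw (fun s => Pool.Agent.Helper31.PMMOR.hmML h12 X Z E (hu s).1 (hu s).2)
  have hpg := h9 n M X d A g u hd0 hX hA0 hg.sm hg.d1 hg.lp hu
  obtain ⟨R, hRd⟩ : ∃ R, R = ∑ s, ∫ x, Pg g (u s) x * (hmM X Z (u s) x - E * u s x) := ⟨_, rfl⟩
  have hRabs : R ≤ Real.sqrt P * Real.sqrt (resM X Z E u) := by
    rw [hRd]
    refine (le_abs_self _).trans (hcs.trans ?_)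
    refine mul_le_mul_of_nonneg_right (Real.sqrt_le_sqrt ?_) (Real.sqrt_nonneg _)
    refine hpg.trans ?_
    rw [hP]
    have b1 : kin u ≤ |B0| := hkB.trans (le_abs_self _)
    have b2 : one (near2 X d) u ≤ C3 * (|B0| + n * 2 / d ^ 2) := by
      refine hHL3.2.trans (mul_le_mul_of_nonneg_left ?_ hC3.le)
      have : (n : ℝ) * Pool.Agent.Helper95.PW.sq u / d ^ 2 ≤ n * 2 / d ^ 2 := by gcongr
      linarith
    have b3 : 0 ≤ 7 * A ^ 2 * (n : ℝ) := by positivity
    exact mul_le_mul_of_nonneg_left (by linarith) b3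
  have hmor : ∑ j, Z j * one (fun y => mor s (y - X j)) u =
      ∑ j, one (fun y => mor s (y - X j)) u :=
    Finset.sum_congr rfl fun j _ => by rw [hZ j, one_mul]
  have hQV : QM X Z u - kin u + nucR X Z * Pool.Agent.Helper95.PW.sq u =
      ∑ s, ∫ x, Vc X Z x * u s x ^ 2 := by
    rw [hvc2]
    unfold QM
    ring
  rw [hQV, hmor]
  obtain ⟨V, hVd⟩ : ∃ V, V = ∑ s, ∫ x, Vc X Z x * u s x ^ 2 := ⟨_, rfl⟩
  obtain ⟨VR, hVR⟩ : ∃ VR, VR = ∑ s, ∫ x, Vir X Z g x * u s x ^ 2 := ⟨_, rfl⟩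
  obtain ⟨N, hN⟩ : ∃ N, N = one (near2 X d) u := ⟨_, rfl⟩
  obtain ⟨L, hL⟩ : ∃ L, L = one (lap (lap g)) u := ⟨_, rfl⟩
  obtain ⟨q, hq⟩ : ∃ q, q = Pool.Agent.Helper95.PW.sq u := ⟨_, rfl⟩
  rw [← hVd, ← hN, ← hq] at hT0
  rw [← hVd, ← hN, ← hq, ← hVR] at hTV
  rw [← hRd, hvd2, ← hVR, hKi, ← hL] at hR
  rw [← hL, ← hq] at hB
  rw [← hVd]
  rw [← hN, ← hq] at hHS
  rw [← hq] at hsq hsq0
  obtain ⟨T, hT⟩ : ∃ T, T = V + (17 * n * q + 17 * N) := ⟨_, rfl⟩
  rw [← hT] at hT0 hTV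
  obtain ⟨W, hW⟩ : ∃ W, W = kin u + n := ⟨_, rfl⟩
  have hW0 : 0 ≤ W := by rw [hW]; positivity
  have hqn : (n : ℝ) * q ≤ 2 * n := by nlinarith
  have hqn0 : 0 ≤ (n : ℝ) * q := mul_nonneg hn0 hsq0
  have hC2d : C2 / d * (kin u + n * q) ≤ 2 * C2 / d * W := by
    have c1 : kin u + n * q ≤ 2 * W := by rw [hW]; linarith
    have c2 := mul_le_mul_of_nonneg_left c1 (show 0 ≤ C2 / d by positivity)
    refine c2.trans (le_of_eq ?_)
    ring
  have hC2d' : 2 * C2 / d * W ≤ 2 * C2 * W := by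
    refine mul_le_mul_of_nonneg_right ?_ hW0
    rw [div_le_iff₀ hd0]
    nlinarith
  have hTW : T ≤ V + K * W := by
    have c4 : K * W = 68 * kin u + 68 * n + 34 * C2 * W := by
      rw [hK, hW]
      ring
    rw [hT, c4]
    nlinarith
  have hsum : ∑ j, one (fun y => mor s (y - X j)) u ≤ 4 * kin u + 2 * R +
      (c0 * W + 4 * C1 * A * T) / d := by
    have c1 : A / d * (n * q) ≤ A / d * (2 * n) :=
      mul_le_mul_of_nonneg_left hqn (by positivity)
    have c2 : C1 * A / d * (n * q) ≤ C1 * A / d * (2 * n) :=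
      mul_le_mul_of_nonneg_left hqn (by positivity)
    have c3 : (c0 * W + 4 * C1 * A * T) / d = 2 * C2 / d * W + 2 * (A / d * kin u) +
        A / d * (2 * n) + 4 * (C1 * A / d * n) + 4 * (C1 * A / d * kin u) +
        4 * (C1 * A / d * T) := by
      rw [hc0, hW]
      field_simp
      ring
    have c4 : 0 ≤ C1 * A / d * kin u := by positivity
    rw [c3]
    have c5 : C1 * A / d * (n * q + 2 * T) = C1 * A / d * (n * q) + 2 * (C1 * A / d * T) := by
      ring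
    rw [c5] at hTV
    linarith
  have hfin : (c0 * W + 4 * C1 * A * T) / d ≤ C / d * (V + C * W) := by
    have c1 : 4 * C1 * A * T ≤ C * T := by
      refine mul_le_mul_of_nonneg_right ?_ hT0
      rw [hC]
      linarith
    have c2 : C * T ≤ C * (V + K * W) := mul_le_mul_of_nonneg_left hTW hC0.le
    have c3 : c0 * W ≤ C * (C - K) * W := by
      refine mul_le_mul_of_nonneg_right ?_ hW0
      have c4 : c0 ≤ C - K := by rw [hC]; linarith
      have c5 : 0 ≤ C - K := hc00.trans c4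
      nlinarith
    have c6 : C / d * (V + C * W) = (C * (V + K * W) + C * (C - K) * W) / d := by
      field_simp
      ring
    rw [c6]
    exact div_le_div_of_nonneg_right (by linarith) hd0.le
  have hres0 := Real.sqrt_nonneg (resM X Z E u)
  have e6 : (2 * Real.sqrt P + 1) * Real.sqrt (resM X Z E u) =
      2 * (Real.sqrt P * Real.sqrt (resM X Z E u)) + Real.sqrt (resM X Z E u) := by ring
  rw [← hW, e6]
  linarith

end Pool.Agent.Helper7.HS
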